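import Pool.Agent.KK.StmtsE

/-!
# Row E_VTX (statement E13), author helper17

The inequality of a single vertex.
-/

set_option autoImplicit false

open Finset

namespace Pool.Agent.KK.E.H17

variable {V : Type} [Fintype V] [DecidableEq V]

/-- The minimal non-normal subsets of `X` disjoint from `F'`. -/
def Mon (H : Finset (Finset V)) (X F' : Finset V) (p q : ℕ) (η : ℕ → ℝ) (M : Finset V) : Prop :=
  Mst H X p q η M ∧ M ⊆ X ∧ Disjoint M F'

/-- The up-set. -/
def Up (H : Finset (Finset V)) (X F' : Finset V) (p q : ℕ) (η : ℕ → ℝ) (v : V) (S : Finset V) :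
    Prop :=
  ∃ A ⊆ S, v ∉ A ∧ Mon H X F' p q η (insert v A)

/-- The event `E_I`, as a property of the restriction of `f` to `I`. -/
def EA (H : Finset (Finset V)) (X F' : Finset V) (p q : ℕ) (η : ℕ → ℝ) (v : V) {ι : Type}
    [Fintype ι] (z : ι → V) : Prop :=
  Function.Injective z ∧ v ∉ Finset.univ.image z ∧ Mon H X F' p q η (insert v (Finset.univ.image z))

/-- The good event. -/
def Gd (H : Finset (Finset V)) (X F' : Finset V) (p q : ℕ) (η : ℕ → ℝ) (v : V)
    (f : Fin (p + 1) ⊕ Fin (q + 1) → V) : Prop :=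
  Gen H X p q η F' ∅ f ∧ v ∉ Finset.univ.image f ∧ insert v (Rx f) ∉ H

theorem up_mono (H : Finset (Finset V)) (X F' : Finset V) (p q : ℕ) (η : ℕ → ℝ) (v : V)
    (S S' : Finset V) (h : S ⊆ S') (hS : Up H X F' p q η v S) : Up H X F' p q η v S' := by
  obtain ⟨A, hA, h1⟩ := hS
  exact ⟨A, hA.trans h, h1⟩

theorem exists_mst (H : Finset (Finset V)) (X : Finset V) (p q : ℕ) (η : ℕ → ℝ) (N : Finset V)
    (hN : Non H X p q η N) : ∃ M ⊆ N, Mst H X p q η M := by
  induction N using Finset.strongInduction with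
  | H N ih =>
    by_cases h : ∃ M' ⊂ N, Non H X p q η M'
    · obtain ⟨M', h1, h2⟩ := h
      obtain ⟨M, h3, h4⟩ := ih M' h1 h2
      exact ⟨M, h3.trans h1.subset, h4⟩
    · refine ⟨N, Finset.Subset.refl N, hN, ?_⟩
      intro M' hM' h'
      exact h ⟨M', hM', h'⟩

theorem dens_one (h1 : StmtE01) {ι : Type} [Fintype ι] (c : ι → Finset V)
    (hc : ∀ i, (c i).Nonempty) (P : (ι → V) → Prop) (hP : ∀ f, (∀ i, f i ∈ c i) → P f) :
    dens c P = 1 := by
  obtain ⟨h01, hmono, hor, hcompl, hpos, hsum⟩ := h1 V ι c hc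
  have h2 := hcompl P
  have h3 : ¬ 0 < dens c (fun f => ¬ P f) := by
    intro h
    obtain ⟨f, hf, hf'⟩ := hpos _ h
    exact hf' (hP f hf)
  have h4 := (h01 (fun f => ¬ P f)).1
  linarith [not_lt.1 h3]

theorem dens_zero (h1 : StmtE01) {ι : Type} [Fintype ι] (c : ι → Finset V)
    (hc : ∀ i, (c i).Nonempty) (P : (ι → V) → Prop) (hP : ∀ f, (∀ i, f i ∈ c i) → ¬ P f) :
    dens c P = 0 := by
  obtain ⟨h01, hmono, hor, hcompl, hpos, hsum⟩ := h1 V ι c hc
  have h3 : ¬ 0 < dens c P := by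
    intro h
    obtain ⟨f, hf, hf'⟩ := hpos _ h
    exact hP f hf hf'
  exact le_antisymm (not_lt.1 h3) (h01 P).1

theorem lets_nonempty (X : Finset V) (hX : X.Nonempty) (hX' : (Xᶜ).Nonempty) (a b : ℕ) :
    ∀ i, (lets X a b i).Nonempty := by
  intro i
  rcases i with i | i
  · exact hX
  · exact hX'

theorem sd_nonempty (X : Finset V) (hX : X.Nonempty) (hX' : (Xᶜ).Nonempty) (b : Bool) :
    (sd X b).Nonempty := by
  cases b
  · exact hX'
  · exact hX

theorem non_edge (h1 : StmtE01) (H : Finset (Finset V)) (X : Finset V) (hX : X.Nonempty)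
    (hX' : (Xᶜ).Nonempty) (p q : ℕ) (η : ℕ → ℝ) (hη : η (p + q + 2) ≤ 1 / 2) (e : Finset V)
    (he : e ∈ H) (hc1 : (e ∩ X).card = p + 1) (hc2 : (e \ X).card = q + 1) :
    Non H X p q η e := by
  refine ⟨hc1.le, hc2.le, ?_⟩
  have hcard : e.card = p + q + 2 := by
    have := Finset.card_inter_add_card_sdiff e X
    omega
  rw [hcard, hc1, hc2, Nat.sub_self, Nat.sub_self]
  have h2 : D H X e 0 0 = 1 := by
    unfold D
    apply dens_one h1 _ (lets_nonempty X hX hX' 0 0)
    intro f hf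
    have h3 : Finset.univ.image f = ∅ := by
      rw [Finset.image_eq_empty]
      apply Finset.univ_eq_empty
    rw [h3, Finset.union_empty]
    exact he
  rw [h2]
  linarith

theorem part1 (h1 : StmtE01) (H : Finset (Finset V)) (X F' : Finset V) (hX : X.Nonempty)
    (hX' : (Xᶜ).Nonempty) (p q : ℕ) (η : ℕ → ℝ) (h : ℝ) (hη : η (p + q + 2) ≤ 1 / 2)
    (hGA : GA H X p q η h F') (v : V) (hvX : v ∈ X) (hvF : v ∉ F')
    (f : Fin (p + 1) ⊕ Fin (q + 1) → V) (hf : ∀ i, f i ∈ lets X (p + 1) (q + 1) i)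
    (hg : Gen H X p q η F' ∅ f) (hv : v ∉ Finset.univ.image f) (he : insert v (Ry f) ∈ H) :
    Up H X F' p q η v (Finset.univ.image (f ∘ fun i : Fin p => Sum.inl i.succ)) := by
  have hfx : ∀ i : Fin (p + 1), f (Sum.inl i) ∈ X := fun i => hf (Sum.inl i)
  have hfy : ∀ i : Fin (q + 1), f (Sum.inr i) ∉ X := fun i => Finset.mem_compl.1 (hf (Sum.inr i))
  obtain ⟨hinj, hW, hN⟩ := hg
  have hv' : ∀ i, f i ≠ v := by
    intro i hi
    exact hv (Finset.mem_image.2 ⟨i, Finset.mem_univ _, hi⟩)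
  have heX : insert v (Ry f) ∩ X =
      insert v (Finset.univ.image (f ∘ fun i : Fin p => Sum.inl i.succ)) := by
    ext u
    simp only [Ry, Finset.mem_inter, Finset.mem_insert, Finset.mem_image, Finset.mem_filter,
      Finset.mem_univ, true_and, Function.comp_apply]
    constructor
    · rintro ⟨h2 | ⟨i, hi, rfl⟩, h3⟩
      · exact Or.inl h2
      · rcases i with i | i
        · have hi0 : i ≠ 0 := fun h4 => hi (by rw [h4])
          obtain ⟨j, hj⟩ := Fin.exists_succ_eq.2 hi0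
          exact Or.inr ⟨j, by rw [hj]⟩
        · exact absurd h3 (hfy i)
    · rintro (h2 | ⟨i, rfl⟩)
      · exact ⟨Or.inl h2, by rw [h2]; exact hvX⟩
      · refine ⟨Or.inr ⟨Sum.inl i.succ, ?_, rfl⟩, hfx _⟩
        intro h4
        exact (Fin.succ_ne_zero i) (Sum.inl.inj h4)
  have heY : insert v (Ry f) \ X = Finset.univ.image (f ∘ fun i : Fin (q + 1) => Sum.inr i) := by
    ext u
    simp only [Ry, Finset.mem_sdiff, Finset.mem_insert, Finset.mem_image, Finset.mem_filter,
      Finset.mem_univ, true_and, Function.comp_apply]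
    constructor
    · rintro ⟨h2 | ⟨i, hi, rfl⟩, h3⟩
      · exact absurd (by rw [h2]; exact hvX) h3
      · rcases i with i | i
        · exact absurd (hfx i) h3
        · exact ⟨i, rfl⟩
    · rintro ⟨i, rfl⟩
      refine ⟨Or.inr ⟨Sum.inr i, ?_, rfl⟩, hfy _⟩
      intro h4
      exact Sum.inr_ne_inl h4
  have hinj1 : Function.Injective (f ∘ fun i : Fin p => (Sum.inl i.succ : Fin (p + 1) ⊕ Fin (q + 1))) :=
    hinj.comp fun a b hab => Fin.succ_injective _ (Sum.inl.inj hab)
  have hinj2 : Function.Injective (f ∘ fun i : Fin (q + 1) => (Sum.inr i : Fin (p + 1) ⊕ Fin (q + 1))) :=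
    hinj.comp fun a b hab => Sum.inr.inj hab
  have hc1 : (insert v (Ry f) ∩ X).card = p + 1 := by
    rw [heX, Finset.card_insert_of_notMem, Finset.card_image_of_injective _ hinj1]
    · simp
    · intro h2
      obtain ⟨i, _, hi⟩ := Finset.mem_image.1 h2
      exact hv' _ hi
  have hc2 : (insert v (Ry f) \ X).card = q + 1 := by
    rw [heY, Finset.card_image_of_injective _ hinj2]
    simp
  have hnon := non_edge h1 H X hX hX' p q η hη _ he hc1 hc2
  obtain ⟨M, hMe, hM⟩ := exists_mst H X p q η _ hnon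
  have hvM : v ∈ M := by
    by_contra hvM
    refine hN M ?_ hM.1
    intro u hu
    rw [Finset.empty_union]
    rcases Finset.mem_insert.1 (hMe hu) with h2 | h2
    · exact absurd (h2 ▸ hu) hvM
    · obtain ⟨i, _, hi⟩ := Finset.mem_image.1 h2
      exact Finset.mem_image.2 ⟨i, Finset.mem_univ _, hi⟩
  have hMF : Disjoint M F' := by
    rw [Finset.disjoint_left]
    intro u hu hu'
    rcases Finset.mem_insert.1 (hMe hu) with h2 | h2
    · exact hvF (h2 ▸ hu')
    · obtain ⟨i, _, hi⟩ := Finset.mem_image.1 h2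
      apply hW i
      rw [hi]
      exact Finset.mem_union_right _ hu'
  have hMX : M ⊆ X := by
    rcases hGA M hM hMF with h2 | h2
    · exact h2.1
    · exact absurd hvX (Finset.mem_compl.1 (h2.1 hvM))
  have hins : insert v (M.erase v) = M := Finset.insert_erase hvM
  refine ⟨M.erase v, ?_, Finset.notMem_erase v M, ?_⟩
  · intro u hu
    obtain ⟨hu1, hu2⟩ := Finset.mem_erase.1 hu
    have h3 : u ∈ insert v (Ry f) ∩ X := Finset.mem_inter.2 ⟨hMe hu2, hMX hu2⟩
    rw [heX] at h3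
    exact (Finset.mem_insert.1 h3).resolve_left hu1
  · rw [hins]
    exact ⟨hM, hMX, hMF⟩

/-- The re-indexing of the coordinates. -/
def psi {p q : ℕ} (I : Finset (Fin (p + 1))) :
    {a // a ∈ I} ⊕ ({a // a ∉ I} ⊕ Fin (q + 1)) ≃ Fin (p + 1) ⊕ Fin (q + 1) :=
  (Equiv.sumAssoc {a // a ∈ I} {a // a ∉ I} (Fin (q + 1))).symm.trans
    ((Equiv.sumCompl (fun a => a ∈ I)).sumCongr (Equiv.refl _))

theorem psi_inl {p q : ℕ} (I : Finset (Fin (p + 1))) (i : {a // a ∈ I}) :
    psi (q := q) I (Sum.inl i) = Sum.inl i.1 := rfl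

theorem psi_inrl {p q : ℕ} (I : Finset (Fin (p + 1))) (i : {a // a ∉ I}) :
    psi (q := q) I (Sum.inr (Sum.inl i)) = Sum.inl i.1 := rfl

theorem psi_inrr {p q : ℕ} (I : Finset (Fin (p + 1))) (i : Fin (q + 1)) :
    psi (q := q) I (Sum.inr (Sum.inr i)) = Sum.inr i := rfl

/-- Letters of the free coordinates. -/
def ltr {p q : ℕ} (I : Finset (Fin (p + 1))) : {a // a ∉ I} ⊕ Fin (q + 1) → Bool :=
  Sum.elim (fun _ => true) (fun _ => false)

/-- If the free coordinates are generic over `A` and the window is not an edge then the event is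
good. -/
theorem good_of (H : Finset (Finset V)) (X F' : Finset V) (p q : ℕ) (η : ℕ → ℝ) (v : V)
    (I : Finset (Fin (p + 1))) (f : {a // a ∈ I} → V) (g : {a // a ∉ I} ⊕ Fin (q + 1) → V)
    (hf : EA H X F' p q η v f)
    (hg : Gen H X p q η (insert v F') (Finset.univ.image f) g) {a : ℕ} (e : Fin a ≃ {a // a ∉ I})
    (hH : insert v (Finset.univ.image f) ∪ Finset.univ.image
      (g ∘ Sum.map e (Fin.succ : Fin q → Fin (q + 1))) ∉ H) :
    Gd H X F' p q η v (Sum.elim f g ∘ (psi I).symm) := by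
  obtain ⟨hfi, hfv, hfM⟩ := hf
  obtain ⟨hgi, hgW, hgN⟩ := hg
  have him : ∀ u, u ∈ Finset.univ.image (Sum.elim f g ∘ (psi I).symm) ↔
      u ∈ Finset.univ.image f ∪ Finset.univ.image g := by
    intro u
    simp only [Finset.mem_union, Finset.mem_image, Finset.mem_univ, true_and, Function.comp_apply]
    constructor
    · rintro ⟨i, hi⟩
      rcases hj : (psi I).symm i with j | j
      · rw [hj] at hi
        exact Or.inl ⟨j, hi⟩
      · rw [hj] at hi
        exact Or.inr ⟨j, hi⟩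
    · rintro (⟨j, hj⟩ | ⟨j, hj⟩)
      · exact ⟨psi I (Sum.inl j), by rw [Equiv.symm_apply_apply]; exact hj⟩
      · exact ⟨psi I (Sum.inr j), by rw [Equiv.symm_apply_apply]; exact hj⟩
  have himv : v ∉ Finset.univ.image (Sum.elim f g ∘ (psi I).symm) := by
    intro h2
    rw [him] at h2
    rcases Finset.mem_union.1 h2 with h3 | h3
    · exact hfv h3
    · obtain ⟨j, _, hj⟩ := Finset.mem_image.1 h3
      apply hgW j
      rw [hj]
      exact Finset.mem_union_right _ (Finset.mem_insert_self _ _)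
  refine ⟨⟨?_, ?_, ?_⟩, himv, ?_⟩
  · refine Function.Injective.comp (Function.Injective.sumElim hfi hgi ?_) (Equiv.injective _)
    intro i j hij
    apply hgW j
    rw [← hij]
    exact Finset.mem_union_left _ (Finset.mem_image.2 ⟨i, Finset.mem_univ _, rfl⟩)
  · intro i
    rw [Finset.empty_union]
    intro h2
    have h3 := (him _).1 (Finset.mem_image.2 ⟨i, Finset.mem_univ _, rfl⟩)
    rcases Finset.mem_union.1 h3 with h4 | h4
    · exact Finset.disjoint_left.1 hfM.2.2 (Finset.mem_insert_of_mem h4) h2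
    · obtain ⟨j, _, hj⟩ := Finset.mem_image.1 h4
      apply hgW j
      rw [hj]
      exact Finset.mem_union_right _ (Finset.mem_insert_of_mem h2)
  · intro N hN
    apply hgN N
    intro u hu
    have h2 := hN hu
    rw [Finset.empty_union] at h2
    exact (him u).1 h2
  · have h2 : insert v (Rx (Sum.elim f g ∘ (psi I).symm)) = insert v (Finset.univ.image f) ∪
        Finset.univ.image (g ∘ Sum.map e (Fin.succ : Fin q → Fin (q + 1))) := by
      ext u
      simp only [Rx, Finset.mem_insert, Finset.mem_union, Finset.mem_image, Finset.mem_univ,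
        true_and, Finset.mem_filter, Function.comp_apply]
      constructor
      · rintro (h3 | ⟨i, hi, hu⟩)
        · exact Or.inl (Or.inl h3)
        · rcases hj : (psi I).symm i with j | j | j
          · rw [hj] at hu
            exact Or.inl (Or.inr ⟨j, hu⟩)
          · rw [hj] at hu
            refine Or.inr ⟨Sum.inl (e.symm j), ?_⟩
            rw [Sum.map_inl, Equiv.apply_symm_apply]
            exact hu
          · rw [hj] at hu
            have hj0 : j ≠ 0 := by
              intro h4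
              apply hi
              have h5 := (Equiv.symm_apply_eq _).1 hj
              rw [h5, psi_inrr, h4]
            obtain ⟨j', hj'⟩ := Fin.exists_succ_eq.2 hj0
            refine Or.inr ⟨Sum.inr j', ?_⟩
            rw [Sum.map_inr, hj']
            exact hu
      · rintro ((h3 | ⟨j, hj⟩) | ⟨j, hj⟩)
        · exact Or.inl h3
        · refine Or.inr ⟨psi I (Sum.inl j), ?_, by rw [Equiv.symm_apply_apply]; exact hj⟩
          rw [psi_inl]
          exact Sum.inl_ne_inr
        · rcases j with j | j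
          · refine Or.inr ⟨psi I (Sum.inr (Sum.inl (e j))), ?_, ?_⟩
            · rw [psi_inrl]
              exact Sum.inl_ne_inr
            · rw [Equiv.symm_apply_apply]
              exact hj
          · refine Or.inr ⟨psi I (Sum.inr (Sum.inr j.succ)), ?_, ?_⟩
            · rw [psi_inrr]
              intro h4
              exact (Fin.succ_ne_zero j) (Sum.inr.inj h4)
            · rw [Equiv.symm_apply_apply]
              exact hj
    rw [h2]
    exact hH

/-- The bad part of `E_I`. -/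
theorem bad_bound (h1 : StmtE01) (h2 : StmtE02) (h3 : StmtE03) (h12 : StmtE12)
    (H : Finset (Finset V)) (X F' : Finset V) (p q B : ℕ) (δ h ρ : ℝ) (η : ℕ → ℝ) (v : V)
    (hA : Amb H X p q B δ) (hpos : ∀ i, i ≤ p + q + 2 → 0 < η i) (hρ : 0 ≤ ρ)
    (hch : ∀ i i', i < i' → i' ≤ p + q + 2 → η i ≤ ρ * η i')
    (hGA : GA H X p q η h F') (hF : F'.card ≤ B + (p + q + 2)) (hh : 0 ≤ h)
    (hX : X.Nonempty) (hX' : (Xᶜ).Nonempty) (hvX : v ∈ X) (I : Finset (Fin (p + 1))) :
    dens (lets X (p + 1) (q + 1)) (fun f =>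
        EA H X F' p q η v (f ∘ fun i : {a // a ∈ I} => Sum.inl i.1) ∧ ¬ Gd H X F' p q η v f) ≤
      (2 ^ (p + q + 2) * ρ + δ + h) *
        dens (lets X (p + 1) (q + 1)) (fun f =>
          EA H X F' p q η v (f ∘ fun i : {a // a ∈ I} => Sum.inl i.1)) := by
  have hτ : 0 ≤ 2 ^ (p + q + 2) * ρ + δ + h := by
    have := hA.pos
    positivity
  have hbox : (lets X (p + 1) (q + 1)) ∘ (psi I) =
      Sum.elim (fun _ : {a // a ∈ I} => X) (fun j => sd X (ltr (q := q) I j)) := by
    funext j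
    rcases j with j | j | j <;> rfl
  have hne := lets_nonempty X hX hX' (p + 1) (q + 1)
  -- re-indexing of the left side
  have e1 : dens (lets X (p + 1) (q + 1)) (fun f =>
        EA H X F' p q η v (f ∘ fun i : {a // a ∈ I} => Sum.inl i.1) ∧ ¬ Gd H X F' p q η v f) =
      dens (Sum.elim (fun _ : {a // a ∈ I} => X) (fun j => sd X (ltr (q := q) I j)))
        (fun g => EA H X F' p q η v (g ∘ Sum.inl) ∧ ¬ Gd H X F' p q η v (g ∘ (psi I).symm)) := by
    rw [← hbox, ← h2 V _ _ (lets X (p + 1) (q + 1)) (psi I) hne (psi I).injective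
      (fun g => EA H X F' p q η v (g ∘ Sum.inl) ∧ ¬ Gd H X F' p q η v (g ∘ (psi I).symm))]
    have h4 : ∀ f : Fin (p + 1) ⊕ Fin (q + 1) → V, (f ∘ psi I) ∘ (psi I).symm = f := by
      intro f
      funext i
      simp
    have h5 : ∀ f : Fin (p + 1) ⊕ Fin (q + 1) → V, (f ∘ psi I) ∘ Sum.inl =
        f ∘ fun i : {a // a ∈ I} => Sum.inl i.1 := by
      intro f
      rfl
    simp only [h4, h5]
  have e2 : dens (lets X (p + 1) (q + 1)) (fun f =>
          EA H X F' p q η v (f ∘ fun i : {a // a ∈ I} => Sum.inl i.1)) =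
      dens (fun _ : {a // a ∈ I} => X) (fun z => EA H X F' p q η v z) := by
    have hi : Function.Injective (fun i : {a // a ∈ I} => (Sum.inl i.1 : Fin (p + 1) ⊕ Fin (q + 1))) :=
      fun a b hab => Subtype.ext (Sum.inl.inj hab)
    exact h2 V _ _ (lets X (p + 1) (q + 1)) _ hne hi (fun z => EA H X F' p q η v z)
  rw [e1, e2]
  have hd : ∀ j, (sd X (ltr (q := q) I j)).Nonempty := fun j => sd_nonempty X hX hX' _
  refine (h3 V {a // a ∈ I} ({a // a ∉ I} ⊕ Fin (q + 1)) (fun _ => X)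
    (fun j => sd X (ltr (q := q) I j)) (fun _ => hX) hd).2.2
    (fun z => EA H X F' p q η v z) (fun g => ¬ Gd H X F' p q η v (g ∘ (psi I).symm)) _ hτ ?_
  intro f hf hEA
  -- the number of free coordinates
  have hcI : (Finset.univ.image f).card = I.card := by
    rw [Finset.card_image_of_injective _ hEA.1]
    simp
  have hcard : I.card + Fintype.card ({a // a ∉ I} ⊕ Fin (q + 1)) = p + q + 2 := by
    have h4 := Fintype.card_congr (psi (q := q) I)
    rw [Fintype.card_sum (α := {a // a ∈ I}), Fintype.card_coe] at h4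
    rw [h4]
    simp
    omega
  have hcard' : Fintype.card {a // a ∉ I} = p + 1 - I.card := by
    rw [Fintype.card_sum, Fintype.card_fin] at hcard
    omega
  have hIle : I.card ≤ p + 1 := by
    have := Finset.card_le_univ I
    simpa using this
  have e : Fin (p + 1 - I.card) ≃ {a // a ∉ I} :=
    (Fintype.equivFinOfCardEq hcard').symm
  have hMst := hEA.2.2
  -- first part
  have b1 : dens (fun j => sd X (ltr (q := q) I j))
      (fun g => ¬ Gen H X p q η (insert v F') (Finset.univ.image f) g) ≤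
      2 ^ (p + q + 2) * ρ + δ := by
    refine h12 V ({a // a ∉ I} ⊕ Fin (q + 1)) H X (Finset.univ.image f) (insert v F') p q B δ ρ η
      (ltr (q := q) I) hA hpos hρ hch ?_ ?_ ?_
    · rw [hcI, hcard]
    · have := Finset.card_insert_le v F'
      omega
    · intro A' hA'
      apply hMst.1.2
      rw [Finset.ssubset_iff_subset_ne]
      refine ⟨hA'.trans (Finset.subset_insert _ _), ?_⟩
      intro h4
      apply hEA.2.1
      apply hA'
      rw [h4]
      exact Finset.mem_insert_self _ _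
  -- second part
  have b2 : dens (fun j => sd X (ltr (q := q) I j))
      (fun g => insert v (Finset.univ.image f) ∪ Finset.univ.image
        (g ∘ Sum.map e (Fin.succ : Fin q → Fin (q + 1))) ∈ H) ≤ h := by
    have hi : Function.Injective (Sum.map e (Fin.succ : Fin q → Fin (q + 1))) :=
      Function.Injective.sumMap e.injective (Fin.succ_injective q)
    have h4 := h2 V _ _ (fun j => sd X (ltr (q := q) I j))
      (Sum.map e (Fin.succ : Fin q → Fin (q + 1))) hd hi
      (fun g => insert v (Finset.univ.image f) ∪ Finset.univ.image g ∈ H)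
    rw [h4]
    have h5 : (fun j => sd X (ltr (q := q) I j)) ∘ (Sum.map e (Fin.succ : Fin q → Fin (q + 1))) =
        lets X (p + 1 - I.card) q := by
      funext j
      rcases j with j | j <;> rfl
    rw [h5]
    have h6 : (insert v (Finset.univ.image f)).card = I.card + 1 := by
      rw [Finset.card_insert_of_notMem hEA.2.1, hcI]
    rcases hGA _ hMst.1 hMst.2.2 with h7 | h7
    · have h8 := h7.2
      rw [h6] at h8
      have h9 : p + 2 - (I.card + 1) = p + 1 - I.card := by omega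
      rw [h9] at h8
      exact h8
    · exact absurd hvX (Finset.mem_compl.1 (h7.1 (Finset.mem_insert_self _ _)))
  obtain ⟨h01, hmono, hor, hcompl, hposi, hsum⟩ :=
    h1 V ({a // a ∉ I} ⊕ Fin (q + 1)) (fun j => sd X (ltr (q := q) I j)) hd
  calc dens (fun j => sd X (ltr (q := q) I j))
        (fun g => ¬ Gd H X F' p q η v (Sum.elim f g ∘ (psi I).symm))
      ≤ dens (fun j => sd X (ltr (q := q) I j)) (fun g =>
        (¬ Gen H X p q η (insert v F') (Finset.univ.image f) g) ∨
        insert v (Finset.univ.image f) ∪ Finset.univ.image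
        (g ∘ Sum.map e (Fin.succ : Fin q → Fin (q + 1))) ∈ H) := by
        apply hmono
        intro g hg hbad
        by_contra hcon
        rw [not_or, not_not] at hcon
        exact hbad (good_of H X F' p q η v I f g hEA hcon.1 e hcon.2)
    _ ≤ _ := hor _ _
    _ ≤ 2 ^ (p + q + 2) * ρ + δ + h := add_le_add b1 b2

theorem ea_bound (h1 : StmtE01) (h11 : StmtE11)
    (H : Finset (Finset V)) (X F' : Finset V) (p q : ℕ) (ρ : ℝ) (η : ℕ → ℝ) (v : V)
    (hpos : ∀ i, i ≤ p + q + 2 → 0 < η i) (hρ : 0 ≤ ρ)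
    (hch : ∀ i i', i < i' → i' ≤ p + q + 2 → η i ≤ ρ * η i')
    (hX : X.Nonempty) (hX' : (Xᶜ).Nonempty) (hvN : ¬ Non H X p q η {v})
    (I : Finset (Fin (p + 1))) :
    dens (fun _ : {a // a ∈ I} => X) (fun z => EA H X F' p q η v z) ≤ ρ := by
  obtain ⟨h01, hmono, hor, hcompl, hposi, hsum⟩ := h1 V {a // a ∈ I} (fun _ => X) (fun _ => hX)
  have hIle : I.card ≤ p + 1 := by
    have := Finset.card_le_univ I
    simpa using this
  rcases Nat.eq_zero_or_pos I.card with h0 | h0
  · have hI : I = ∅ := Finset.card_eq_zero.1 h0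
    rw [dens_zero h1 _ (fun _ => hX)]
    · exact hρ
    · intro z hz hEA
      have h4 : Finset.univ.image z = ∅ := by
        rw [← Finset.card_eq_zero, Finset.card_image_of_injective _ hEA.1]
        simpa using h0
      have h5 := hEA.2.2.1.1
      rw [h4] at h5
      exact hvN h5
  · have h4 := h11 V {a // a ∈ I} H X {v} p q η (fun _ => true) hX hX'
      (by rw [Finset.card_singleton]; exact (hpos 1 (by omega)).le)
      (by rw [Finset.card_singleton, Fintype.card_coe]; exact hpos _ (by omega)) hvN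
    rw [Finset.card_singleton, Fintype.card_coe] at h4
    have h5 : dens (fun _ : {a // a ∈ I} => X) (fun z => EA H X F' p q η v z) ≤
        dens (fun i : {a // a ∈ I} => sd X ((fun _ => true) i)) (fun z =>
          ({v} ∪ Finset.univ.image z).card = 1 + I.card ∧
            Non H X p q η ({v} ∪ Finset.univ.image z)) := by
      refine hmono _ _ ?_
      intro z hz hEA
      have h6 : {v} ∪ Finset.univ.image z = insert v (Finset.univ.image z) := rfl
      rw [h6]
      refine ⟨?_, hEA.2.2.1.1⟩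
      rw [Finset.card_insert_of_notMem hEA.2.1, Finset.card_image_of_injective _ hEA.1]
      simp
      omega
    refine h5.trans (h4.trans ?_)
    have h6 := hpos (1 + I.card) (by omega)
    rw [div_le_iff₀ h6]
    exact hch 1 (1 + I.card) (by omega) (by omega)

theorem up_iff (H : Finset (Finset V)) (X F' : Finset V) (p q : ℕ) (η : ℕ → ℝ) (v : V)
    (f : Fin (p + 1) ⊕ Fin (q + 1) → V) (hU : Up H X F' p q η v (Finset.univ.image (f ∘ Sum.inl))) :
    ∃ I : Finset (Fin (p + 1)), EA H X F' p q η v (f ∘ fun i : {a // a ∈ I} => Sum.inl i.1) := by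
  classical
  obtain ⟨A, hAS, hvA, hM⟩ := hU
  choose! r hr using fun (u : V) (hu : u ∈ A) => Finset.mem_image.1 (hAS hu)
  refine ⟨A.image r, ?_⟩
  have h2 : Finset.univ.image (f ∘ fun i : {a // a ∈ A.image r} => Sum.inl i.1) = A := by
    ext u
    simp only [Finset.mem_image, Finset.mem_univ, true_and, Function.comp_apply]
    constructor
    · rintro ⟨⟨i, hi⟩, rfl⟩
      obtain ⟨w, hw, rfl⟩ := Finset.mem_image.1 hi
      have h3 := (hr w hw).2
      rw [Function.comp_apply] at h3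
      rw [h3]
      exact hw
    · intro hu
      exact ⟨⟨r u, Finset.mem_image.2 ⟨u, hu, rfl⟩⟩, (hr u hu).2⟩
  refine ⟨?_, ?_, ?_⟩
  · rintro ⟨i, hi⟩ ⟨j, hj⟩ hij
    obtain ⟨w, hw, rfl⟩ := Finset.mem_image.1 hi
    obtain ⟨w', hw', rfl⟩ := Finset.mem_image.1 hj
    have h3 := (hr w hw).2
    have h4 := (hr w' hw').2
    have h5 : w = w' := by
      rw [← h3, ← h4]
      exact hij
    apply Subtype.ext
    exact congrArg r h5
  · rw [h2]
    exact hvA
  · rw [h2]
    exact hM

theorem up_of (H : Finset (Finset V)) (X F' : Finset V) (p q : ℕ) (η : ℕ → ℝ) (v : V)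
    (f : Fin (p + 1) ⊕ Fin (q + 1) → V) (I : Finset (Fin (p + 1)))
    (hI : EA H X F' p q η v (f ∘ fun i : {a // a ∈ I} => Sum.inl i.1)) :
    Up H X F' p q η v (Finset.univ.image (f ∘ Sum.inl)) := by
  refine ⟨_, ?_, hI.2.1, hI.2.2⟩
  intro u hu
  obtain ⟨i, _, hi⟩ := Finset.mem_image.1 hu
  exact Finset.mem_image.2 ⟨i.1, Finset.mem_univ _, hi⟩

theorem chain (k B : ℕ) (hk : 1 ≤ k) (η : ℕ → ℝ)
    (hpos : ∀ i, i ≤ k → 0 < η i)
    (step : ∀ i, i < k → 8 * (k : ℝ) * 4 ^ k * ((B : ℝ) + 1) * η i ≤ η (i + 1)) :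
    ∀ i i', i < i' → i' ≤ k → η i ≤ 1 / (8 * (k : ℝ) * 4 ^ k) * η i' := by
  have hk' : (1 : ℝ) ≤ (k : ℝ) := by exact_mod_cast hk
  have h4 : (1 : ℝ) ≤ 4 ^ k := one_le_pow₀ (by norm_num)
  have hK : (1 : ℝ) ≤ 8 * (k : ℝ) * 4 ^ k := by nlinarith
  have hK0 : (0 : ℝ) < 8 * (k : ℝ) * 4 ^ k := by linarith
  have hst : ∀ i, i < k → η i ≤ 1 / (8 * (k : ℝ) * 4 ^ k) * η (i + 1) := by
    intro i hi
    have h5 := step i hi
    have h6 := hpos i hi.le
    have h7 : 8 * (k : ℝ) * 4 ^ k * η i ≤ 8 * (k : ℝ) * 4 ^ k * ((B : ℝ) + 1) * η i := by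
      have hB : (0 : ℝ) ≤ (B : ℝ) := Nat.cast_nonneg B
      have h8 : 0 ≤ 8 * (k : ℝ) * 4 ^ k * η i * (B : ℝ) := by positivity
      nlinarith
    rw [one_div, inv_mul_eq_div, le_div_iff₀ hK0]
    linarith
  intro i i' hii'
  induction i', hii' using Nat.le_induction with
  | base =>
    intro h
    exact hst i (by omega)
  | succ m hm ih =>
    intro h
    have h5 := ih (by omega)
    have h6 := hst m (by omega)
    have h7 := hpos (m + 1) h
    have h8 : 1 / (8 * (k : ℝ) * 4 ^ k) ≤ 1 := by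
      rw [div_le_one hK0]
      exact hK
    have h9 : η m ≤ η (m + 1) := by
      refine h6.trans ?_
      nlinarith
    refine h5.trans ?_
    apply mul_le_mul_of_nonneg_left h9
    positivity

/-- The arithmetic at the end. -/
theorem arith (p k : ℕ) (hk : p + 1 < k) (τ ρ δ h Q : ℝ) (hQ : 0 ≤ Q)
    (hρ : ρ = 1 / (8 * (k : ℝ) * 4 ^ k)) (hh : h ≤ 1 / (8 * (k : ℝ) * 2 ^ k))
    (hδ : δ ≤ 1 / (8 * (k : ℝ) * 2 ^ k)) (hτ : τ = 2 ^ k * ρ + δ + h) :
    2 ^ (p + 1) * (τ * Q) ≤ Q / (2 * ((p : ℝ) + 1)) ∧ 2 ^ (p + 1) * ρ ≤ 1 / 2 := by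
  have hk0 : (0 : ℝ) < (k : ℝ) := by
    have : 0 < k := by omega
    exact_mod_cast this
  have hk1 : (1 : ℝ) ≤ (k : ℝ) := by
    have : 1 ≤ k := by omega
    exact_mod_cast this
  have hpk : (p : ℝ) + 1 ≤ (k : ℝ) := by
    have : p + 1 ≤ k := by omega
    exact_mod_cast this
  have h2 : (1 : ℝ) ≤ 2 ^ k := one_le_pow₀ (by norm_num)
  have h2' : (2 : ℝ) ^ (p + 1) ≤ 2 ^ k := pow_le_pow_right₀ (by norm_num) hk.le
  have h4 : (4 : ℝ) ^ k = 2 ^ k * 2 ^ k := by
    rw [← mul_pow]
    norm_num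
  have hρ2 : 2 ^ k * ρ = 1 / (8 * (k : ℝ) * 2 ^ k) := by
    rw [hρ, h4]
    field_simp
  have hρ0 : 0 ≤ ρ := by
    rw [hρ]
    positivity
  have hτ3 : τ ≤ 3 / (8 * (k : ℝ) * 2 ^ k) := by
    rw [hτ, hρ2]
    have : (3 : ℝ) / (8 * (k : ℝ) * 2 ^ k) = 1 / (8 * (k : ℝ) * 2 ^ k) + 1 / (8 * (k : ℝ) * 2 ^ k)
      + 1 / (8 * (k : ℝ) * 2 ^ k) := by ring
    rw [this]
    linarith
  constructor
  · have h5 : 2 ^ (p + 1) * (τ * Q) ≤ 2 ^ (p + 1) * (3 / (8 * (k : ℝ) * 2 ^ k) * Q) := by
      gcongr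
    have h6 : 2 ^ (p + 1) * (3 / (8 * (k : ℝ) * 2 ^ k) * Q) ≤
        2 ^ k * (3 / (8 * (k : ℝ) * 2 ^ k) * Q) := by
      gcongr
    have h7 : 2 ^ k * (3 / (8 * (k : ℝ) * 2 ^ k) * Q) = 3 / 8 * (Q / (k : ℝ)) := by
      field_simp
    have h8 : Q / (k : ℝ) ≤ Q / ((p : ℝ) + 1) := by
      gcongr
    have h9 : Q / (2 * ((p : ℝ) + 1)) = 1 / 2 * (Q / ((p : ℝ) + 1)) := by
      field_simp
    have h10 : 0 ≤ Q / ((p : ℝ) + 1) := by positivity
    rw [h9]
    linarith
  · have h5 : 2 ^ (p + 1) * ρ ≤ 2 ^ k * ρ := by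
      gcongr
    have h6 : (1 : ℝ) / (8 * (k : ℝ) * 2 ^ k) ≤ 1 / 2 := by
      rw [div_le_div_iff₀ (by positivity) (by norm_num)]
      nlinarith
    linarith

theorem e_vtx (h1 : StmtE01) (h2 : StmtE02) (h3 : StmtE03) (_h5 : StmtE05) (h9 : StmtE09)
    (h11 : StmtE11) (h12 : StmtE12) : StmtE13 := by
  intro V _ _ H X F' p q B δ h η θ v hA hC hGA hF _hN0 hvX hvF hvN
  have hpos := hC.pos
  have hk : 1 ≤ p + q + 2 := by omega
  have hX : X.Nonempty := ⟨v, hvX⟩
  have hX' : (Xᶜ).Nonempty := by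
    rw [← Finset.card_pos]
    have h4 := hA.lo'
    have h5 := hA.big
    have h6 := hA.small
    have h7 := hA.pos
    have h8 : (1 : ℝ) ≤ ((p + q + 2 : ℕ) : ℝ) := by exact_mod_cast hk
    have h8' : (1 : ℝ) ≤ ((B + p + q + 2 : ℕ) : ℝ) := by
      have : 1 ≤ B + p + q + 2 := by omega
      exact_mod_cast this
    have h10 : (0 : ℝ) < δ * (Fintype.card V : ℝ) := by
      refine lt_of_lt_of_le ?_ h5
      positivity
    have h11 : (0 : ℝ) < (Fintype.card V : ℝ) := by
      by_contra hcon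
      have : (Fintype.card V : ℝ) = 0 := le_antisymm (not_lt.1 hcon) (Nat.cast_nonneg _)
      rw [this, mul_zero] at h10
      exact lt_irrefl _ h10
    have h13 : (0 : ℝ) < ((Xᶜ).card : ℝ) := by
      refine lt_of_lt_of_le ?_ h4
      have : 0 < 1 - δ := by linarith
      positivity
    exact_mod_cast h13
  have hch := chain (p + q + 2) B hk η hpos hC.step
  have hρ0 : (0 : ℝ) ≤ 1 / (8 * ((p + q + 2 : ℕ) : ℝ) * 4 ^ (p + q + 2)) := by positivity
  have hη : η (p + q + 2) ≤ 1 / 2 := hC.half _ le_rfl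
  have hne := lets_nonempty X hX hX' (p + 1) (q + 1)
  obtain ⟨h01, hmono, hor, hcompl, hposi, hsum⟩ :=
    h1 V (Fin (p + 1) ⊕ Fin (q + 1)) (lets X (p + 1) (q + 1)) hne
  set ρ : ℝ := 1 / (8 * ((p + q + 2 : ℕ) : ℝ) * 4 ^ (p + q + 2)) with hρdef
  set Q1 : ℝ := dens (fun _ : Fin (p + 1) => X) (fun f => Up H X F' p q η v (Finset.univ.image f))
    with hQ1
  set Q0 : ℝ := dens (fun _ : Fin p => X) (fun f => Up H X F' p q η v (Finset.univ.image f))
    with hQ0
  set c := lets X (p + 1) (q + 1) with hc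
  have hcard2 : (Finset.univ : Finset (Finset (Fin (p + 1)))).card = 2 ^ (p + 1) := by
    rw [Finset.card_univ, Fintype.card_finset, Fintype.card_fin]
  -- density of U
  have u1 : dens c (fun f => Up H X F' p q η v (Finset.univ.image (f ∘ Sum.inl))) = Q1 :=
    h2 V _ _ c Sum.inl hne Sum.inl_injective (fun f => Up H X F' p q η v (Finset.univ.image f))
  have u0 : dens c (fun f => Up H X F' p q η v
      (Finset.univ.image (f ∘ fun i : Fin p => Sum.inl i.succ))) = Q0 :=
    h2 V _ _ c (fun i : Fin p => Sum.inl i.succ) hne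
      (fun a b hab => Fin.succ_injective _ (Sum.inl.inj hab))
      (fun f => Up H X F' p q η v (Finset.univ.image f))
  have uI : ∀ I : Finset (Fin (p + 1)), dens c (fun f =>
      EA H X F' p q η v (f ∘ fun i : {a // a ∈ I} => Sum.inl i.1)) ≤ Q1 := by
    intro I
    rw [← u1]
    apply hmono
    intro f hf hI
    exact up_of H X F' p q η v f I hI
  have uI' : ∀ I : Finset (Fin (p + 1)), dens c (fun f =>
      EA H X F' p q η v (f ∘ fun i : {a // a ∈ I} => Sum.inl i.1)) ≤ ρ := by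
    intro I
    have hi : Function.Injective (fun i : {a // a ∈ I} => (Sum.inl i.1 : Fin (p + 1) ⊕ Fin (q + 1))) :=
      fun a b hab => Subtype.ext (Sum.inl.inj hab)
    rw [h2 V _ _ c (fun i : {a // a ∈ I} => (Sum.inl i.1 : Fin (p + 1) ⊕ Fin (q + 1))) hne hi
      (fun z => EA H X F' p q η v z)]
    exact ea_bound h1 h11 H X F' p q ρ η v hpos hρ0 hch hX hX' hvN I
  have hQ1n : 0 ≤ Q1 := by
    rw [← u1]
    exact (h01 _).1
  have hQ1s : Q1 ≤ 2 ^ (p + 1) * ρ := by
    calc Q1 ≤ dens c (fun f => ∃ I : Finset (Fin (p + 1)),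
          EA H X F' p q η v (f ∘ fun i : {a // a ∈ I} => Sum.inl i.1)) := by
          rw [← u1]
          apply hmono
          intro f hf hU
          exact up_iff H X F' p q η v f hU
      _ ≤ ∑ I : Finset (Fin (p + 1)), dens c (fun f =>
          EA H X F' p q η v (f ∘ fun i : {a // a ∈ I} => Sum.inl i.1)) :=
          hsum (Finset (Fin (p + 1))) (fun I f =>
            EA H X F' p q η v (f ∘ fun i : {a // a ∈ I} => Sum.inl i.1))
      _ ≤ ∑ I : Finset (Fin (p + 1)), ρ := Finset.sum_le_sum fun I _ => uI' I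
      _ = 2 ^ (p + 1) * ρ := by
          rw [Finset.sum_const, hcard2, nsmul_eq_mul]
          push_cast
          ring
  set τ : ℝ := 2 ^ (p + q + 2) * ρ + δ + h with hτdef
  have hτ0 : 0 ≤ τ := by
    have h4 := hC.hpos
    have h5 := hC.dpos
    positivity
  have hbad : dens c (fun f => Up H X F' p q η v (Finset.univ.image (f ∘ Sum.inl)) ∧
      ¬ Gd H X F' p q η v f) ≤ 2 ^ (p + 1) * (τ * Q1) := by
    calc dens c (fun f => Up H X F' p q η v (Finset.univ.image (f ∘ Sum.inl)) ∧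
          ¬ Gd H X F' p q η v f)
        ≤ dens c (fun f => ∃ I : Finset (Fin (p + 1)),
          EA H X F' p q η v (f ∘ fun i : {a // a ∈ I} => Sum.inl i.1) ∧
          ¬ Gd H X F' p q η v f) := by
          apply hmono
          rintro f hf ⟨hU, hb⟩
          obtain ⟨I, hI⟩ := up_iff H X F' p q η v f hU
          exact ⟨I, hI, hb⟩
      _ ≤ ∑ I : Finset (Fin (p + 1)), dens c (fun f =>
          EA H X F' p q η v (f ∘ fun i : {a // a ∈ I} => Sum.inl i.1) ∧
          ¬ Gd H X F' p q η v f) :=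
          hsum (Finset (Fin (p + 1))) (fun I f =>
            EA H X F' p q η v (f ∘ fun i : {a // a ∈ I} => Sum.inl i.1) ∧
            ¬ Gd H X F' p q η v f)
      _ ≤ ∑ I : Finset (Fin (p + 1)), τ * Q1 := by
          apply Finset.sum_le_sum
          intro I _
          refine (bad_bound h1 h2 h3 h12 H X F' p q B δ h ρ η v hA hpos hρ0 hch hGA hF
            hC.hpos.le hX hX' hvX I).trans ?_
          exact mul_le_mul_of_nonneg_left (uI I) hτ0
      _ = 2 ^ (p + 1) * (τ * Q1) := by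
          rw [Finset.sum_const, hcard2, nsmul_eq_mul]
          push_cast
          ring
  have hδ : δ ≤ 1 / (8 * ((p + q + 2 : ℕ) : ℝ) * 2 ^ (p + q + 2)) := by
    have h4 := hC.dsmall
    have h5 := hC.hsmall
    have h6 : η 0 ≤ 1 / 2 := hC.half 0 (by omega)
    have h7 := hC.hpos
    have h8 : η 0 * h ≤ h := by
      have := hpos 0 (by omega)
      nlinarith
    have h10 : (1 : ℝ) ≤ ((p + q + 2 : ℕ) : ℝ) := by exact_mod_cast hk
    have h11 : (1 : ℝ) ≤ 4 ^ (p + q + 2) := one_le_pow₀ (by norm_num)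
    have h13 : (1 : ℝ) ≤ (B : ℝ) + 1 := by
      have : (0 : ℝ) ≤ (B : ℝ) := Nat.cast_nonneg B
      linarith
    have h14 := hC.dpos
    have h15 : (1 : ℝ) ≤ 100 * ((p + q + 2 : ℕ) : ℝ) * 4 ^ (p + q + 2) * ((B : ℝ) + 1) := by
      have h16 : (1 : ℝ) ≤ 100 * ((p + q + 2 : ℕ) : ℝ) * 4 ^ (p + q + 2) := by nlinarith
      nlinarith
    have h16 : δ ≤ 100 * ((p + q + 2 : ℕ) : ℝ) * 4 ^ (p + q + 2) * ((B : ℝ) + 1) * δ := by
      nlinarith
    linarith
  obtain ⟨ar1, ar2⟩ := arith p (p + q + 2) (by omega) τ ρ δ h Q1 hQ1n hρdef hC.hsmall hδ hτdef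
  -- the growth inequality
  have hgr := h9 V X (Up H X F' p q η v) p hX (fun S S' h5 h6 => up_mono H X F' p q η v S S' h5 h6)
  rw [← hQ1, ← hQ0] at hgr
  have hgr2 : Q1 / (2 * ((p : ℝ) + 1)) ≤ Q1 - Q0 := by
    have h4 : Q1 * (1 / 2) ≤ Q1 * (1 - Q1) := by
      apply mul_le_mul_of_nonneg_left _ hQ1n
      linarith
    rw [div_le_iff₀ (by positivity)]
    nlinarith
  -- left side
  have hL : dens c (fun f => Gen H X p q η F' ∅ f ∧ v ∉ Finset.univ.image f ∧
      insert v (Ry f) ∈ H) ≤ Q0 := by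
    rw [← u0]
    apply hmono
    rintro f hf ⟨hg, hv, he⟩
    exact part1 h1 H X F' hX hX' p q η h hη hGA v hvX hvF f hf hg hv he
  have hR : Q1 ≤ dens c (fun f => Up H X F' p q η v (Finset.univ.image (f ∘ Sum.inl)) ∧
      ¬ Gd H X F' p q η v f) + dens c (fun f => Gd H X F' p q η v f) := by
    rw [← u1]
    refine le_trans ?_ (hor _ _)
    apply hmono
    intro f hf hU
    by_cases hg : Gd H X F' p q η v f
    · exact Or.inr hg
    · exact Or.inl ⟨hU, hg⟩
  have hR' : dens c (fun f => Gd H X F' p q η v f) = dens c (fun f => Gen H X p q η F' ∅ f ∧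
      v ∉ Finset.univ.image f ∧ insert v (Rx f) ∉ H) := rfl
  rw [← hR']
  linarith

end Pool.Agent.KK.E.H17
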